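import Pool.Agent.N303.LS.Stm

set_option autoImplicit false

/-!
# Project LS of helper303, leaf ENB: weighted energy estimate (helper914)
-/

namespace Pool.Agent.N914.LS

open MeasureTheory Pool.Agent.N303.LS
open scoped ENNReal RealInnerProductSpace

variable {d : ℕ}

lemma W_pos (M : ℕ) (x : E d) : 0 < W M x := by
  unfold W; positivity

lemma W_cont (M : ℕ) : Continuous (W M : E d → ℝ) := by
  unfold W
  have h : ∀ x : E d, (1 + ‖x‖ ^ 2) ^ M ≠ 0 := fun x => by positivity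
  exact Continuous.inv₀ (by fun_prop) h

lemma W_int (M : ℕ) (h : d < 2 * M) (z : E d) : Integrable fun x : E d => W M (x - z) := by
  have h1 : Integrable (W M : E d → ℝ) := by
    have h2 := integrable_rpow_neg_one_add_norm_sq (E := E d) (μ := volume) (r := 2 * M) (by
      rw [finrank_euclideanSpace, Fintype.card_fin]
      exact_mod_cast h)
    refine h2.congr (Filter.Eventually.of_forall fun x => ?_)
    simp only [W]
    rw [show -(2 * (M : ℝ)) / 2 = -(M : ℝ) by ring, Real.rpow_neg (by positivity),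
      Real.rpow_natCast]
  exact h1.comp_sub_right z

/-- the logarithmic derivative of the weight -/
noncomputable def Dw (M : ℕ) (y : E d) (j : Fin d) : ℝ := -(2 * M * y j / (1 + ‖y‖ ^ 2))

lemma W_line (M : ℕ) (z x : E d) (j : Fin d) :
    HasLineDerivAt ℝ (fun x => W M (x - z)) (Dw M (x - z) j * W M (x - z)) x
      (EuclideanSpace.single j (1 : ℝ)) := by
  unfold HasLineDerivAt
  set v : E d := EuclideanSpace.single j (1 : ℝ) with hv
  have h0 : HasDerivAt (fun t : ℝ => x + t • v - z) v 0 := by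
    have h1 : HasDerivAt (fun t : ℝ => t • v) ((1 : ℝ) • v) 0 := (hasDerivAt_id 0).smul_const v
    rw [one_smul] at h1
    exact (h1.const_add x).sub_const z
  have h1 := h0.norm_sq
  have h2 : HasDerivAt (fun t : ℝ => 1 + ‖x + t • v - z‖ ^ 2) (2 * ⟪x + (0 : ℝ) • v - z, v⟫) 0 :=
    h1.const_add 1
  have h3 : HasDerivAt (fun t : ℝ => (1 + ‖x + t • v - z‖ ^ 2) ^ M)
      (M * (1 + ‖x + (0 : ℝ) • v - z‖ ^ 2) ^ (M - 1) * (2 * ⟪x + (0 : ℝ) • v - z, v⟫)) 0 := h2.pow M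
  have h4 : HasDerivAt (fun t : ℝ => ((1 + ‖x + t • v - z‖ ^ 2) ^ M)⁻¹)
      (-(M * (1 + ‖x + (0 : ℝ) • v - z‖ ^ 2) ^ (M - 1) * (2 * ⟪x + (0 : ℝ) • v - z, v⟫)) /
        ((1 + ‖x + (0 : ℝ) • v - z‖ ^ 2) ^ M) ^ 2) 0 := h3.inv (by positivity)
  have e : x + (0 : ℝ) • v - z = x - z := by rw [zero_smul, add_zero]
  have hin : ⟪x - z, v⟫ = (x - z) j := by
    rw [hv, EuclideanSpace.inner_single_right]
    simp
  rw [e, hin] at h4
  refine h4.congr_deriv ?_
  unfold Dw W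
  have hp : 0 < 1 + ‖x - z‖ ^ 2 := by positivity
  rcases M with _ | M
  · simp
  · simp only [Nat.add_sub_cancel]
    field_simp
    ring

lemma Dw_cont (M : ℕ) (j : Fin d) : Continuous fun y : E d => Dw M y j := by
  unfold Dw
  have h : ∀ y : E d, 1 + ‖y‖ ^ 2 ≠ 0 := fun y => by positivity
  have h1 : Continuous fun y : E d => 2 * (M : ℝ) * y j := by fun_prop
  exact (h1.div (by fun_prop) h).neg

lemma coord_le (y : E d) (j : Fin d) : |y j| ≤ ‖y‖ := by
  have := EuclideanSpace.norm_sq_eq y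
  have h1 : ‖y j‖ ^ 2 ≤ ∑ i, ‖y i‖ ^ 2 :=
    Finset.single_le_sum (f := fun i => ‖y i‖ ^ 2) (fun i _ => sq_nonneg _) (Finset.mem_univ j)
  rw [← this] at h1
  exact abs_le_of_sq_le_sq' (by simpa using h1) (norm_nonneg y) |> fun h => abs_le.2 h

lemma Dw_bd (M : ℕ) (y : E d) (j : Fin d) : |Dw M y j| ≤ M := by
  unfold Dw
  have hp : 0 < 1 + ‖y‖ ^ 2 := by positivity
  rw [abs_neg, abs_div, abs_of_pos hp, div_le_iff₀ hp, abs_mul]
  have h1 := coord_le y j
  have h2 : |2 * (M : ℝ)| = 2 * M := abs_of_nonneg (by positivity)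
  rw [h2]
  have h3 : 2 * |y j| ≤ 1 + ‖y‖ ^ 2 := by nlinarith [sq_nonneg (‖y‖ - 1)]
  have h4 : (0 : ℝ) ≤ M := Nat.cast_nonneg M
  nlinarith

/-- Cauchy-Schwarz -/
lemma cauchy (a : ℝ) (ha : 0 ≤ a) (b c : Fin d → ℝ) (y : E d) (hb : ∀ j, 0 ≤ b j)
    (hc : ∀ j, |c j| ≤ a * b j) :
    4 * |∑ j, c j * y j| ≤ (1 + ‖y‖ ^ 2) * (a ^ 2 + ∑ j, b j ^ 2) := by
  set s : ℝ := Real.sqrt (∑ j, b j ^ 2) with hs
  have hs0 : 0 ≤ s := Real.sqrt_nonneg _
  have hs2 : s ^ 2 = ∑ j, b j ^ 2 := Real.sq_sqrt (Finset.sum_nonneg fun j _ => sq_nonneg _)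
  have h1 : |∑ j, c j * y j| ≤ a * ∑ j, b j * |y j| := by
    refine (Finset.abs_sum_le_sum_abs _ _).trans ?_
    rw [Finset.mul_sum]
    apply Finset.sum_le_sum
    intro j _
    rw [abs_mul, ← mul_assoc]
    exact mul_le_mul_of_nonneg_right (hc j) (abs_nonneg _)
  have h2 : (∑ j, b j * |y j|) ^ 2 ≤ (s * ‖y‖) ^ 2 := by
    rw [mul_pow, hs2, EuclideanSpace.norm_sq_eq y]
    refine (Finset.sum_mul_sq_le_sq_mul_sq Finset.univ b fun j => |y j|).trans (le_of_eq ?_)
    simp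
  have h3 : ∑ j, b j * |y j| ≤ s * ‖y‖ :=
    le_of_sq_le_sq h2 (by positivity)
  have h4 : |∑ j, c j * y j| ≤ a * (s * ‖y‖) := h1.trans (mul_le_mul_of_nonneg_left h3 ha)
  rw [← hs2]
  have h5 : 0 ≤ ‖y‖ := norm_nonneg y
  have h6 : 2 * (a * s) ≤ a ^ 2 + s ^ 2 := by nlinarith [sq_nonneg (a - s)]
  have h7 : 2 * ‖y‖ ≤ 1 + ‖y‖ ^ 2 := by nlinarith [sq_nonneg (‖y‖ - 1)]
  calc 4 * |∑ j, c j * y j| ≤ 4 * (a * (s * ‖y‖)) := by linarith
    _ = (2 * ‖y‖) * (2 * (a * s)) := by ring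
    _ ≤ (1 + ‖y‖ ^ 2) * (a ^ 2 + s ^ 2) := mul_le_mul h7 h6 (by positivity) (by positivity)

section

variable {M : ℕ} {B : ℝ} {φ : ℝ → E d → ℂ} {A Dφ DA : Fin d → ℝ → E d → ℂ}

/-- the energy density -/
noncomputable def ed (φ : ℝ → E d → ℂ) (A : Fin d → ℝ → E d → ℂ) (t : ℝ) (x : E d) : ℝ :=
  ‖φ t x‖ ^ 2 + ∑ j, ‖A j t x‖ ^ 2

/-- its derivative -/
noncomputable def ed' (φ : ℝ → E d → ℂ) (A Dφ DA : Fin d → ℝ → E d → ℂ) (t : ℝ) (x : E d) : ℝ :=
  2 * ⟪φ t x, ∑ j, DA j t x⟫ + ∑ j, 2 * ⟪A j t x, Dφ j t x⟫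

lemma sec {F : ℝ → E d → ℂ} (h : Continuous fun p : ℝ × E d => F p.1 p.2) (t : ℝ) :
    Continuous (F t) := h.comp (continuous_const.prodMk continuous_id)

lemma ed_cont (h : Aco B φ A Dφ DA) (t : ℝ) : Continuous (ed φ A t) := by
  unfold ed
  have h1 := sec h.cφ t
  have h2 := fun j => sec (h.cA j) t
  fun_prop

lemma ed'_cont (h : Aco B φ A Dφ DA) (t : ℝ) : Continuous (ed' φ A Dφ DA t) := by
  unfold ed'
  have h1 := sec h.cφ t
  have h2 := fun j => sec (h.cA j) t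
  have h3 := fun j => sec (h.cDφ j) t
  have h4 := fun j => sec (h.cDA j) t
  fun_prop

lemma B_nonneg (h : Aco B φ A Dφ DA) : 0 ≤ B := (norm_nonneg _).trans (h.bφ 0 0)

lemma ed_nonneg (t : ℝ) (x : E d) : 0 ≤ ed φ A t x := by unfold ed; positivity

lemma ed_bd (h : Aco B φ A Dφ DA) (t : ℝ) (x : E d) : ‖ed φ A t x‖ ≤ B ^ 2 + d * B ^ 2 := by
  rw [Real.norm_of_nonneg (ed_nonneg t x)]
  unfold ed
  have h1 : ‖φ t x‖ ^ 2 ≤ B ^ 2 := pow_le_pow_left₀ (norm_nonneg _) (h.bφ t x) 2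
  have h2 : ∑ j, ‖A j t x‖ ^ 2 ≤ ∑ _j : Fin d, B ^ 2 := Finset.sum_le_sum fun j _ =>
    pow_le_pow_left₀ (norm_nonneg _) (h.bA j t x) 2
  rw [Finset.sum_const, Finset.card_univ, Fintype.card_fin, nsmul_eq_mul] at h2
  linarith

lemma inner_bd {a b : ℂ} {B C : ℝ} (ha : ‖a‖ ≤ B) (hb : ‖b‖ ≤ C) (hB : 0 ≤ B) : |⟪a, b⟫| ≤ B * C :=
  (abs_real_inner_le_norm a b).trans (mul_le_mul ha hb (norm_nonneg _) hB)

lemma ed'_bd (h : Aco B φ A Dφ DA) (t : ℝ) (x : E d) :
    ‖ed' φ A Dφ DA t x‖ ≤ 2 * (B * (d * B)) + d * (2 * (B * B)) := by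
  have hB := B_nonneg h
  unfold ed'
  rw [Real.norm_eq_abs]
  refine (abs_add_le _ _).trans ?_
  apply add_le_add
  · rw [abs_mul, abs_two]
    apply mul_le_mul_of_nonneg_left _ (by norm_num)
    apply inner_bd (h.bφ t x) _ hB
    refine (norm_sum_le _ _).trans ?_
    refine (Finset.sum_le_sum fun j _ => h.bDA j t x).trans (le_of_eq ?_)
    rw [Finset.sum_const, Finset.card_univ, Fintype.card_fin, nsmul_eq_mul]
  · refine (Finset.abs_sum_le_sum_abs _ _).trans ?_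
    refine (Finset.sum_le_sum (g := fun _ => 2 * (B * B)) fun j _ => ?_).trans (le_of_eq ?_)
    · rw [abs_mul, abs_two]
      apply mul_le_mul_of_nonneg_left _ (by norm_num)
      exact inner_bd (h.bA j t x) (h.bDφ j t x) hB
    · rw [Finset.sum_const, Finset.card_univ, Fintype.card_fin, nsmul_eq_mul]

lemma ed_deriv (h : Aco B φ A Dφ DA) (t : ℝ) (x : E d) :
    HasDerivAt (fun s => ed φ A s x) (ed' φ A Dφ DA t x) t := by
  unfold ed ed'
  have h1 : HasDerivAt (fun s => ‖φ s x‖ ^ 2) (2 * ⟪φ t x, ∑ j, DA j t x⟫) t := (h.φt t x).norm_sq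
  have h2 : ∀ j, HasDerivAt (fun s => ‖A j s x‖ ^ 2) (2 * ⟪A j t x, Dφ j t x⟫) t := fun j =>
    (h.At j t x).norm_sq
  exact h1.add (HasDerivAt.fun_sum fun j _ => h2 j)

lemma intb {f g : E d → ℝ} {C : ℝ} (hg : Integrable g) (hf : Continuous f)
    (hC : ∀ x, ‖f x‖ ≤ C) : Integrable fun x => f x * g x :=
  hg.bdd_mul hf.aestronglyMeasurable (Filter.Eventually.of_forall hC)

/-- the energy -/
noncomputable def En (M : ℕ) (z : E d) (φ : ℝ → E d → ℂ) (A : Fin d → ℝ → E d → ℂ) (t : ℝ) : ℝ :=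
  ∫ x, ed φ A t x * W M (x - z)

lemma En_deriv (hM : d < 2 * M) (h : Aco B φ A Dφ DA) (z : E d) (t : ℝ) :
    HasDerivAt (En M z φ A) (∫ x, ed' φ A Dφ DA t x * W M (x - z)) t := by
  have hW := W_int M hM z
  have hWc : Continuous fun x : E d => W M (x - z) := (W_cont M).comp (continuous_id.sub continuous_const)
  refine (hasDerivAt_integral_of_dominated_loc_of_deriv_le (s := Set.univ)
    (F := fun s x => ed φ A s x * W M (x - z)) (F' := fun s x => ed' φ A Dφ DA s x * W M (x - z))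
    (bound := fun x => (2 * (B * (d * B)) + d * (2 * (B * B))) * W M (x - z))
    Filter.univ_mem ?_ ?_ ?_ ?_ ?_ ?_).2
  · exact Filter.Eventually.of_forall fun s => ((ed_cont h s).mul hWc).aestronglyMeasurable
  · exact intb hW (ed_cont h t) (ed_bd h t)
  · exact ((ed'_cont h t).mul hWc).aestronglyMeasurable
  · refine Filter.Eventually.of_forall fun x s _ => ?_
    rw [norm_mul, Real.norm_of_nonneg (W_pos M (x - z)).le]
    exact mul_le_mul_of_nonneg_right (ed'_bd h s x) (W_pos M (x - z)).le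
  · exact hW.const_mul _
  · refine Filter.Eventually.of_forall fun x s _ => ?_
    exact (ed_deriv h s x).mul_const _

lemma En_deriv_le (hM : d < 2 * M) (h : Aco B φ A Dφ DA) (z : E d) (t : ℝ) :
    ∫ x, ed' φ A Dφ DA t x * W M (x - z) ≤ M * En M z φ A t := by
  have hW := W_int M hM z
  have hB := B_nonneg h
  have cφ := sec h.cφ t
  have cA := fun j => sec (h.cA j) t
  have cDφ := fun j => sec (h.cDφ j) t
  have cDA := fun j => sec (h.cDA j) t
  have cq : ∀ j, Continuous fun x => ⟪φ t x, A j t x⟫ := fun j => cφ.inner (cA j)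
  have cq' : ∀ j, Continuous fun x => ⟪φ t x, DA j t x⟫ + ⟪Dφ j t x, A j t x⟫ := fun j =>
    (cφ.inner (cDA j)).add ((cDφ j).inner (cA j))
  have bq : ∀ j x, ‖(⟪φ t x, A j t x⟫ : ℝ)‖ ≤ B * B := fun j x =>
    inner_bd (h.bφ t x) (h.bA j t x) hB
  have bq' : ∀ j x, ‖(⟪φ t x, DA j t x⟫ + ⟪Dφ j t x, A j t x⟫ : ℝ)‖ ≤ B * B + B * B := fun j x =>
    (abs_add_le _ _).trans (add_le_add (inner_bd (h.bφ t x) (h.bDA j t x) hB)
      (inner_bd (h.bDφ j t x) (h.bA j t x) hB))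
  have cD : ∀ j, Continuous fun x : E d => Dw M (x - z) j := fun j =>
    (Dw_cont M j).comp (continuous_id.sub continuous_const)
  -- integrability
  have i1 : ∀ j, Integrable fun x => (⟪φ t x, DA j t x⟫ + ⟪Dφ j t x, A j t x⟫) * W M (x - z) :=
    fun j => intb hW (cq' j) (bq' j)
  have i2 : ∀ j, Integrable fun x => ⟪φ t x, A j t x⟫ * (Dw M (x - z) j * W M (x - z)) := by
    intro j
    have := intb (f := fun x => ⟪φ t x, A j t x⟫ * Dw M (x - z) j) hW ((cq j).mul (cD j))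
      (C := B * B * M) fun x => by
      rw [norm_mul]
      exact mul_le_mul (bq j x) (Dw_bd M _ j) (abs_nonneg _) (by positivity)
    refine this.congr (Filter.Eventually.of_forall fun x => ?_)
    simp only [mul_assoc]
  have i3 : ∀ j, Integrable fun x => ⟪φ t x, A j t x⟫ * W M (x - z) := fun j =>
    intb hW (cq j) (bq j)
  -- integration by parts
  have ibp : ∀ j, ∫ x, (⟪φ t x, DA j t x⟫ + ⟪Dφ j t x, A j t x⟫) * W M (x - z) =
      - ∫ x, ⟪φ t x, A j t x⟫ * (Dw M (x - z) j * W M (x - z)) := by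
    intro j
    have hl : ∀ x, HasLineDerivAt ℝ (fun x => (⟪φ t x, A j t x⟫ : ℝ))
        (⟪φ t x, DA j t x⟫ + ⟪Dφ j t x, A j t x⟫) x (EuclideanSpace.single j (1 : ℝ)) := by
      intro x
      have a1 : HasDerivAt (fun s : ℝ => φ t (x + s • EuclideanSpace.single j (1 : ℝ)))
        (Dφ j t x) 0 := h.φx j t x
      have a2 : HasDerivAt (fun s : ℝ => A j t (x + s • EuclideanSpace.single j (1 : ℝ)))
        (DA j t x) 0 := h.Ax j t x
      have a3 := a1.inner ℝ a2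
      simp only [zero_smul, add_zero] at a3
      exact a3
    have := integral_bilinear_hasLineDerivAt_right_eq_neg_left_of_integrable (μ := volume)
      (B := ContinuousLinearMap.mul ℝ ℝ)
      (f := fun x => (⟪φ t x, A j t x⟫ : ℝ))
      (f' := fun x => ⟪φ t x, DA j t x⟫ + ⟪Dφ j t x, A j t x⟫)
      (g := fun x => W M (x - z)) (g' := fun x => Dw M (x - z) j * W M (x - z))
      (v := EuclideanSpace.single j (1 : ℝ)) (by simpa only [ContinuousLinearMap.mul_apply'] using i1 j)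
      (by simpa only [ContinuousLinearMap.mul_apply'] using i2 j)
      (by simpa only [ContinuousLinearMap.mul_apply'] using i3 j) (fun x _ => hl x) (fun x _ => W_line M z x j)
    simp only [ContinuousLinearMap.mul_apply'] at this
    rw [this, neg_neg]
  have e1 : ∀ x, ed' φ A Dφ DA t x * W M (x - z) =
      ∑ j, 2 * ((⟪φ t x, DA j t x⟫ + ⟪Dφ j t x, A j t x⟫) * W M (x - z)) := by
    intro x
    unfold ed'
    rw [inner_sum, Finset.mul_sum, ← Finset.sum_add_distrib, Finset.sum_mul]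
    apply Finset.sum_congr rfl
    intro j _
    rw [real_inner_comm (Dφ j t x) (A j t x)]
    ring
  have e2 : ∫ x, ed' φ A Dφ DA t x * W M (x - z) =
      ∫ x, ∑ j, -2 * (⟪φ t x, A j t x⟫ * (Dw M (x - z) j * W M (x - z))) := by
    rw [integral_congr_ae (Filter.Eventually.of_forall e1),
      integral_finsetSum _ (fun j _ => (i1 j).const_mul 2),
      integral_finsetSum _ (fun j _ => (i2 j).const_mul (-2))]
    apply Finset.sum_congr rfl
    intro j _
    rw [integral_const_mul, integral_const_mul, ibp j]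
    ring
  rw [e2]
  unfold En
  rw [← integral_const_mul]
  apply integral_mono (integrable_finsetSum _ fun j _ => (i2 j).const_mul (-2))
    ((intb hW (ed_cont h t) (ed_bd h t)).const_mul _)
  intro x
  have hw := W_pos M (x - z)
  have hp : 0 < 1 + ‖x - z‖ ^ 2 := by positivity
  have hc := cauchy ‖φ t x‖ (norm_nonneg _) (fun j => ‖A j t x‖) (fun j => ⟪φ t x, A j t x⟫) (x - z)
    (fun j => norm_nonneg _) (fun j => abs_real_inner_le_norm _ _)
  have e3 : ∑ j, -2 * (⟪φ t x, A j t x⟫ * (Dw M (x - z) j * W M (x - z))) =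
      4 * M / (1 + ‖x - z‖ ^ 2) * (∑ j, ⟪φ t x, A j t x⟫ * (x - z) j) * W M (x - z) := by
    unfold Dw
    rw [Finset.mul_sum, Finset.sum_mul]
    apply Finset.sum_congr rfl
    intro j _
    ring
  show ∑ j, -2 * (⟪φ t x, A j t x⟫ * (Dw M (x - z) j * W M (x - z))) ≤
    M * (ed φ A t x * W M (x - z))
  rw [e3, ← mul_assoc]
  apply mul_le_mul_of_nonneg_right _ hw.le
  have h1 : 4 * (∑ j, ⟪φ t x, A j t x⟫ * (x - z) j) ≤ (1 + ‖x - z‖ ^ 2) * ed φ A t x := by
    refine le_trans ?_ hc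
    have := le_abs_self (∑ j, ⟪φ t x, A j t x⟫ * (x - z) j)
    linarith
  have h2 : 4 * M / (1 + ‖x - z‖ ^ 2) * (∑ j, ⟪φ t x, A j t x⟫ * (x - z) j) =
      M / (1 + ‖x - z‖ ^ 2) * (4 * (∑ j, ⟪φ t x, A j t x⟫ * (x - z) j)) := by ring
  rw [h2]
  calc M / (1 + ‖x - z‖ ^ 2) * (4 * (∑ j, ⟪φ t x, A j t x⟫ * (x - z) j)) ≤
      M / (1 + ‖x - z‖ ^ 2) * ((1 + ‖x - z‖ ^ 2) * ed φ A t x) :=
        mul_le_mul_of_nonneg_left h1 (by positivity)
    _ = M * ed φ A t x := by field_simp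

lemma En_le (hM : d < 2 * M) (h : Aco B φ A Dφ DA) (z : E d) (t : ℝ) (ht : 0 ≤ t) :
    En M z φ A t ≤ Real.exp (M * t) * En M z φ A 0 := by
  have h1 : ∀ s, HasDerivAt (fun s => Real.exp (-(M * s)) * En M z φ A s)
      (Real.exp (-(M * s)) * (-M) * En M z φ A s +
        Real.exp (-(M * s)) * ∫ x, ed' φ A Dφ DA s x * W M (x - z)) s := by
    intro s
    have h2 : HasDerivAt (fun s : ℝ => -(M * s)) (-M : ℝ) s := by
      have := ((hasDerivAt_id s).const_mul (M : ℝ)).neg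
      rw [mul_one] at this
      exact this
    exact h2.exp.mul (En_deriv hM h z s)
  have h3 : Antitone fun s => Real.exp (-(M * s)) * En M z φ A s := by
    apply antitone_of_deriv_nonpos (fun s => (h1 s).differentiableAt)
    intro s
    rw [(h1 s).deriv]
    have h4 := En_deriv_le hM h z s
    have h5 := Real.exp_pos (-(M * s))
    nlinarith
  have h4 := h3 ht
  simp only [mul_zero, neg_zero, Real.exp_zero, one_mul] at h4
  calc En M z φ A t = Real.exp (M * t) * (Real.exp (-(M * t)) * En M z φ A t) := by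
        rw [← mul_assoc, ← Real.exp_add, add_neg_cancel, Real.exp_zero, one_mul]
    _ ≤ Real.exp (M * t) * En M z φ A 0 := mul_le_mul_of_nonneg_left h4 (Real.exp_pos _).le

lemma nrg_eq (M : ℕ) (g : E d → ℂ) (z : E d) :
    nrg M g z = ∫⁻ x, ENNReal.ofReal (‖g x‖ ^ 2 * W M (x - z)) := by
  unfold nrg
  apply lintegral_congr
  intro x
  rw [ENNReal.ofReal_mul (by positivity), ENNReal.ofReal_pow (norm_nonneg _), ofReal_norm,
    ENNReal.rpow_two]

lemma En_eq (hM : d < 2 * M) (h : Aco B φ A Dφ DA) (z : E d) (t : ℝ) :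
    nrg M (φ t) z + ∑ j, nrg M (A j t) z = ENNReal.ofReal (En M z φ A t) := by
  have hW := W_int M hM z
  have hWc : Continuous fun x : E d => W M (x - z) := (W_cont M).comp (continuous_id.sub continuous_const)
  unfold En
  rw [ofReal_integral_eq_lintegral_ofReal (intb hW (ed_cont h t) (ed_bd h t))
    (Filter.Eventually.of_forall fun x => mul_nonneg (ed_nonneg t x) (W_pos M _).le)]
  simp only [nrg_eq]
  have m1 : ∀ F : E d → ℂ, Continuous F →
      Measurable fun x => ENNReal.ofReal (‖F x‖ ^ 2 * W M (x - z)) := fun F hF =>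
    (((hF.norm.pow 2).mul hWc).measurable).ennreal_ofReal
  rw [← lintegral_finsetSum _ (fun j _ => m1 _ (sec (h.cA j) t)),
    ← lintegral_add_left (m1 _ (sec h.cφ t))]
  apply lintegral_congr
  intro x
  have hw := (W_pos M (x - z)).le
  rw [← ENNReal.ofReal_sum_of_nonneg (fun j _ => mul_nonneg (by positivity) hw),
    ← ENNReal.ofReal_add (mul_nonneg (by positivity) hw)
      (Finset.sum_nonneg fun j _ => mul_nonneg (by positivity) hw), ← Finset.sum_mul, ← add_mul]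
  rfl

end

theorem t_enb : S_ENB := by
  intro d M hM B φ A Dφ DA h z t ht
  rw [En_eq hM h z t, En_eq hM h z 0, ← ENNReal.ofReal_mul (Real.exp_pos _).le]
  exact ENNReal.ofReal_le_ofReal (En_le hM h z t ht)

end Pool.Agent.N914.LS

namespace Pool.Agent.N303.LS

theorem t_enb : Pool.Agent.N303.LS.S_ENB := Pool.Agent.N914.LS.t_enb

end Pool.Agent.N303.LS
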